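import Pool.Agent.Lib.MP_b5ead8_al_C.CN2

/-!
# MP_b5ead8_al: constrained Nielsen theorem
-/

set_option autoImplicit false

namespace Pool.Agent.MPb5ead8

open FreeGroup Function

/-- PROOF. Copy `norm_lift_ge` (file `NInj.lean`) with `cn1`, `cn2`. -/
theorem cnorm_lift_ge {κ σ : Type} [Fintype κ] [Fintype σ] [DecidableEq κ] [DecidableEq σ]
    {h : ℕ} {c : σ → Fin h} (hc' : Injective c) {t : κ ⊕ σ → FreeGroup (Fin h)} (ht : CMin t)
    (hL : ConL c t) (w : FreeGroup {i : κ ⊕ σ // t i ≠ 1}) :
    w.norm ≤ (FreeGroup.lift (fun s : {i : κ ⊕ σ // t i ≠ 1} => t s.1) w).norm := by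
  have hlen : (w.toWord.map (fun x => ((x.1.1, x.2) : (κ ⊕ σ) × Bool))).length = w.norm := by
    rw [List.length_map]; rfl
  have hprod : FreeGroup.lift (fun s : {i : κ ⊕ σ // t i ≠ 1} => t s.1) w =
      ((w.toWord.map (fun x => ((x.1.1, x.2) : (κ ⊕ σ) × Bool))).map (V t)).prod := by
    conv_lhs => rw [← mk_toWord (x := w), lift_mk]
    rw [List.map_map]
    congr 1
    apply List.map_congr_left
    rintro ⟨s, b⟩ _
    cases b <;> simp [V]
  rw [hprod, ← hlen]
  apply prod_norm (V t) (fun a b hab => (cn1 hc' ht hL hab).1)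
    (fun a b hab => (cn1 hc' ht hL hab).2) (fun a b c hb hab hbc => cn2 hc' ht hL hb hab hbc)
  · rw [List.isChain_map]
    have hr : IsReduced w.toWord := isReduced_toWord
    refine List.IsChain.imp ?_ hr
    rintro ⟨x, c⟩ ⟨y, d⟩ hxy heq
    simp only [bar, Prod.mk.injEq] at heq
    have h1 : x = y := Subtype.ext heq.1.symm
    have h2 : c = d := hxy h1
    rw [h2] at heq
    cases d <;> simp at heq
  · intro b hb
    rw [List.mem_map] at hb
    obtain ⟨x, _, rfl⟩ := hb
    have hx := x.1.2
    unfold V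
    simp only
    split_ifs
    · exact hx
    · exact inv_ne_one.mpr hx

/-- a letter or its inverse which is conjugate to a letter -/
private theorem cfin_letter {h : ℕ} {l k : Fin h} {b : Bool}
    (hc : IsConj (FreeGroup.of l) (if b then FreeGroup.of k else (FreeGroup.of k)⁻¹)) :
    (if b then FreeGroup.of k else (FreeGroup.of k)⁻¹) = FreeGroup.of l := by
  obtain ⟨f, hf⟩ : ∃ f : FreeGroup (Fin h) →* Multiplicative ℤ,
      ∀ m, f (FreeGroup.of m) = if m = l then Multiplicative.ofAdd (1 : ℤ) else 1 :=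
    ⟨FreeGroup.lift fun m => if m = l then Multiplicative.ofAdd (1 : ℤ) else 1,
      fun m => by rw [FreeGroup.lift_apply_of]⟩
  have h1 := f.map_isConj hc
  rw [isConj_iff_eq, hf, if_pos rfl] at h1
  have h0 : (Multiplicative.ofAdd (1 : ℤ)) ≠ 1 := by decide
  have h2 : (Multiplicative.ofAdd (1 : ℤ)) ≠ (Multiplicative.ofAdd (1 : ℤ))⁻¹ := by decide
  cases b
  · rw [if_neg (by simp), _root_.map_inv, hf] at h1
    split_ifs at h1
    · exact absurd h1 h2
    · rw [inv_one] at h1
      exact absurd h1 h0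
  · rw [if_pos rfl, hf] at h1
    split_ifs at h1 with h3
    · rw [if_pos rfl, h3]
    · exact absurd h1 h0

/-- Constrained Nielsen theorem: a generating tuple of `F_h` whose entries `inr j` are conjugates
of the letters `c j` can be transformed, conjugating the entries `inr j`, into a tuple of letters
(up to sign) and ones, with the letters `c j` at `inr j`.
PROOF. `Fintype` instances, `classical`. `exists_cmin t` gives `s`, `CN t s`, `CMin s`. `ConL c s`
by `CN.isConj` and `IsConj.trans`. `s` generates by `CN.toNE` and `NE.closure_top`. As in the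
proof of `nielsen` (file `Nielsen.lean`), `letters` gives `e`, `ε` with
`s (e k) = if ε k then of k else (of k)⁻¹`. For `j : σ`: `s (inr j) ≠ 1` (it is conjugate to
`of (c j) ≠ 1`), so `inr j = e k` for some `k`; `(of k)^{±1}` is conjugate to `of (c j)`, so
`k = c j` and the sign is `+`: apply the homomorphism `FreeGroup (Fin h) →* Multiplicative ℤ`
(`FreeGroup.lift`) with `of (c j) ↦ ofAdd 1` and the other generators to `1` (conjugate elements
of a commutative group are equal, `isConj_iff_eq`). -/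
theorem cnielsen {κ σ : Type} [Finite κ] [Finite σ] {h : ℕ} {c : σ → Fin h} (hc' : Injective c)
    (t : κ ⊕ σ → FreeGroup (Fin h)) (ht : Subgroup.closure (Set.range t) = ⊤) (hL : ConL c t) :
    ∃ (s : κ ⊕ σ → FreeGroup (Fin h)) (e : Fin h ≃ {i : κ ⊕ σ // s i ≠ 1}) (ε : Fin h → Bool),
      CN t s ∧ (∀ k, s (e k) = if ε k then FreeGroup.of k else (FreeGroup.of k)⁻¹) ∧
      ∀ j, s (Sum.inr j) = FreeGroup.of (c j) := by
  classical
  have := Fintype.ofFinite κ
  have := Fintype.ofFinite σ
  obtain ⟨s, hts, hs⟩ := exists_cmin t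
  have hsL : ConL c s := fun j => (hL j).trans (hts.isConj j)
  have hgen := hts.toNE.closure_top ht
  have hgen' : Subgroup.closure (Set.range (fun i : {i : κ ⊕ σ // s i ≠ 1} => s i.1)) = ⊤ := by
    rw [eq_top_iff, ← hgen, Subgroup.closure_le]
    rintro _ ⟨i, rfl⟩
    by_cases hi : s i = 1
    · rw [hi]
      exact one_mem _
    · exact Subgroup.subset_closure ⟨⟨i, hi⟩, rfl⟩
  obtain ⟨e, ε, he⟩ := letters (fun i : {i : κ ⊕ σ // s i ≠ 1} => s i.1)
    (cnorm_lift_ge hc' hs hsL) hgen'
  refine ⟨s, e, ε, hts, he, fun j => ?_⟩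
  have hne : s (Sum.inr j) ≠ 1 := by
    intro h1
    have h2 := hsL j
    rw [h1, isConj_one_left] at h2
    exact FreeGroup.of_ne_one _ h2
  have h3 := he (e.symm ⟨Sum.inr j, hne⟩)
  rw [Equiv.apply_symm_apply] at h3
  have h4 := hsL j
  rw [h3] at h4 ⊢
  exact cfin_letter h4

end Pool.Agent.MPb5ead8
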