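import Pool.Agent.Lib.MP_b5ead8_al_C.Defs

/-!
# MP_b5ead8_al: constrained minimal tuples exist
-/

set_option autoImplicit false

namespace Pool.Agent.MPb5ead8

open FreeGroup Function

/-- PROOF. Copy `exists_minimal` (file `Pool.Agent.Lib.MP_b5ead8_al.NMin`) with `CN`, `CN.refl`,
`CN.trans` in the place of `NE`. -/
theorem exists_cmin {κ σ : Type} [Fintype κ] [Fintype σ] {h : ℕ}
    (t : κ ⊕ σ → FreeGroup (Fin h)) : ∃ s : κ ⊕ σ → FreeGroup (Fin h), CN t s ∧ CMin s := by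
  classical
  have h1 : ∃ n, ∃ s : κ ⊕ σ → FreeGroup (Fin h), CN t s ∧ ∑ i, (s i).norm = n :=
    ⟨_, t, CN.refl t, rfl⟩
  have h2 : ∃ m, ∃ s : κ ⊕ σ → FreeGroup (Fin h), CN t s ∧ ∑ i, (s i).norm = Nat.find h1 ∧
      ∑ i, sec h (s i) = m := by
    obtain ⟨s, h3, h4⟩ := Nat.find_spec h1
    exact ⟨_, s, h3, h4, rfl⟩
  obtain ⟨s, h3, h4, h5⟩ := Nat.find_spec h2
  refine ⟨s, h3, fun s' hs' => ?_⟩
  have h6 : Nat.find h1 ≤ ∑ i, (s' i).norm := Nat.find_min' h1 ⟨s', h3.trans hs', rfl⟩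
  rcases h6.lt_or_eq with h7 | h7
  · left
    rw [h4]
    exact h7
  · right
    refine ⟨h4.trans h7, ?_⟩
    rw [h5]
    exact Nat.find_min' h2 ⟨s', h3.trans hs', h7.symm, rfl⟩

private theorem cmin_sum {ι : Type} [Fintype ι] [DecidableEq ι] {G : Type} (f : G → ℕ)
    (t : ι → G) (i : ι) (x : G) :
    ∑ j, f (Function.update t i x j) + f (t i) = ∑ j, f (t j) + f x := by
  rw [← Finset.add_sum_erase _ (fun j => f (Function.update t i x j)) (Finset.mem_univ i),
    ← Finset.add_sum_erase _ (fun j => f (t j)) (Finset.mem_univ i)]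
  have h1 : ∑ j ∈ Finset.univ.erase i, f (Function.update t i x j) =
      ∑ j ∈ Finset.univ.erase i, f (t j) := by
    refine Finset.sum_congr rfl fun j hj => ?_
    rw [Function.update_of_ne (Finset.ne_of_mem_erase hj)]
  rw [h1, Function.update_self]
  omega

/-- PROOF. Copy `Minimal.update` (file `Pool.Agent.Lib.MP_b5ead8_al.NMin`). -/
theorem CMin.update {κ σ : Type} [Fintype κ] [Fintype σ] [DecidableEq κ] [DecidableEq σ] {h : ℕ}
    {t : κ ⊕ σ → FreeGroup (Fin h)} (ht : CMin t) (i : κ ⊕ σ) (x : FreeGroup (Fin h))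
    (hx : CN t (Function.update t i x)) :
    (t i).norm < x.norm ∨ ((t i).norm = x.norm ∧ sec h (t i) ≤ sec h x) := by
  have h1 := cmin_sum (fun y : FreeGroup (Fin h) => y.norm) t i x
  have h2 := cmin_sum (fun y : FreeGroup (Fin h) => sec h y) t i x
  rcases ht _ hx with h3 | ⟨h3, h4⟩
  · left
    omega
  · right
    exact ⟨by omega, by omega⟩

/-- A free entry cannot be shortened by a product. PROOF. `CN.prod_entry t hb hab` and
`CMin.update`; `|V t b| = |t b.1|` (`norm_inv_eq`). -/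
theorem CMin.free_norm {κ σ : Type} [Fintype κ] [Fintype σ] {h : ℕ}
    {t : κ ⊕ σ → FreeGroup (Fin h)} (ht : CMin t) {a b : (κ ⊕ σ) × Bool} {i : κ}
    (hb : b.1 = Sum.inl i) (hab : a.1 ≠ b.1) :
    (V t b).norm < (V t a * V t b).norm ∨
      ((V t b).norm = (V t a * V t b).norm ∧ sec h (V t b) ≤ sec h (V t a * V t b)) := by
  classical
  have h1 := ht.update b.1 _ (CN.prod_entry t hb hab)
  have h2 : (V t b).norm = (t b.1).norm := by
    unfold V
    split_ifs
    · rfl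
    · exact FreeGroup.norm_inv_eq
  have h3 : sec h (V t b) = sec h (t b.1) := by
    unfold V
    split_ifs
    · rfl
    · exact sec_inv _
  rw [h2, h3]
  exact h1

/-- A constrained entry cannot be shortened by a conjugation. PROOF. `CN.conj_signed t ha` and
`CMin.update` for `j`. If `b.2 = true`, `V t b = t (inr j)` and this is the claim. If
`b.2 = false`, `V t b = (t (inr j))⁻¹` and `V t a * V t b * (V t a)⁻¹ =
(V t a * t (inr j) * (V t a)⁻¹)⁻¹`; use `norm_inv_eq` and `sec_inv`. -/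
theorem CMin.conj_norm {κ σ : Type} [Fintype κ] [Fintype σ] {h : ℕ}
    {t : κ ⊕ σ → FreeGroup (Fin h)} (ht : CMin t) {a b : (κ ⊕ σ) × Bool} {j : σ}
    (hb : b.1 = Sum.inr j) (hab : a.1 ≠ b.1) :
    (V t b).norm < (V t a * V t b * (V t a)⁻¹).norm ∨
      ((V t b).norm = (V t a * V t b * (V t a)⁻¹).norm ∧
        sec h (V t b) ≤ sec h (V t a * V t b * (V t a)⁻¹)) := by
  classical
  have ha : a.1 ≠ Sum.inr j := by rwa [hb] at hab
  have h1 := ht.update (Sum.inr j) _ (CN.conj_signed t ha)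
  rcases b with ⟨k, c⟩
  simp only at hb
  subst hb
  cases c
  · have h2 : V t (Sum.inr j, false) = (t (Sum.inr j))⁻¹ := by simp [V]
    have h3 : V t a * (t (Sum.inr j))⁻¹ * (V t a)⁻¹ =
        (V t a * t (Sum.inr j) * (V t a)⁻¹)⁻¹ := by group
    rw [h2, h3, FreeGroup.norm_inv_eq, FreeGroup.norm_inv_eq, sec_inv, sec_inv]
    exact h1
  · have h2 : V t (Sum.inr j, true) = t (Sum.inr j) := by simp [V]
    rw [h2]
    exact h1

end Pool.Agent.MPb5ead8
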