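import Pool.Agent.Lib.MP_b5ead8_al_C.CFin

/-!
# MP_b5ead8_al: tuples with `h` entries conjugate to `(1, b_j)`, `j ≤ h`, in `F_g × F_{h+1}`
-/

set_option autoImplicit false

namespace Pool.Agent.MPb5ead8

open FreeGroup Function

/-- PROOF. `cnielsen` for `MonoidHom.snd _ _ ∘ t` and `c = Fin.castSucc` (`ConL`: the second
coordinate of `hq j`, `MonoidHom.map_isConj`; generating: as in `shape`, file `Stable.lean`,
`Subgroup.map_top_of_surjective _ Prod.snd_surjective`). `CN.lift_map` gives `T` with `CN t T` and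
`MonoidHom.snd _ _ ∘ T = s`. It suffices that `Std T` (`Std.of_NE`, file `Glue.lean`, and
`CN.toNE`). `T` generates (`NE.closure_top`).
First coordinate of `T (inr j)`: conjugate to the first coordinate of `(1, of j.castSucc)`
(`CN.isConj`, `IsConj.trans`, `MonoidHom.map_isConj` with `MonoidHom.fst`), so it is `1`
(`isConj_one_right` or `isConj_one_left`).
Let `x₀ : κ ⊕ Fin h` be the index `e (Fin.last h)`. For `x ≠ x₀` the first or the second
coordinate of `T x` is `1`: if `x = inr j` see above; if `x = inl i` and `s x ≠ 1`, then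
`x = e k` with `k ≠ Fin.last h`, so `k = j.castSucc` for some `j`, and
`s x = (of j.castSucc)^{±1}`; but `inr j = e k'` for some `k'` (`s (inr j) = of j.castSucc ≠ 1`)
and `s (inr j) = (of k')^{±1}`, so `k' = j.castSucc = k` (compare words or use the exponent sum),
and `x = inr j`, a contradiction. So `s x = 1`, which is the second coordinate of `T x`.
Apply `mixed` (file `MixB.lean`) with `i₀ = x₀`; `Nat.card (κ ⊕ Fin h) = (g + 1) + h`. -/
theorem pure_conj {κ : Type} [Finite κ] {g h : ℕ} (hκ : Nat.card κ = g + 1)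
    (t : κ ⊕ Fin h → FreeGroup (Fin g) × FreeGroup (Fin (h + 1)))
    (ht : Subgroup.closure (Set.range t) = ⊤)
    (hq : ∀ j : Fin h, IsConj
      ((1, FreeGroup.of j.castSucc) : FreeGroup (Fin g) × FreeGroup (Fin (h + 1)))
      (t (Sum.inr j))) : Std t := by
  classical
  have h1 : Subgroup.closure (Set.range
      (MonoidHom.snd (FreeGroup (Fin g)) (FreeGroup (Fin (h + 1))) ∘ t)) = ⊤ := by
    rw [Set.range_comp, ← MonoidHom.map_closure, ht]
    exact Subgroup.map_top_of_surjective _ Prod.snd_surjective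
  have hL : ConL Fin.castSucc (MonoidHom.snd (FreeGroup (Fin g)) (FreeGroup (Fin (h + 1))) ∘ t) :=
    fun j => (MonoidHom.snd (FreeGroup (Fin g)) (FreeGroup (Fin (h + 1)))).map_isConj (hq j)
  obtain ⟨s, e, ε, hCN, he, hs⟩ := cnielsen (Fin.castSucc_injective h) _ h1 hL
  obtain ⟨T, hT, hTs⟩ := CN.lift_map
    (MonoidHom.snd (FreeGroup (Fin g)) (FreeGroup (Fin (h + 1)))) hCN
  refine Std.of_NE hT.toNE ?_
  have hT1 : ∀ j, (T (Sum.inr j)).1 = 1 := by
    intro j
    have h2 := (hq j).trans (hT.isConj j)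
    have h3 := (MonoidHom.fst (FreeGroup (Fin g)) (FreeGroup (Fin (h + 1)))).map_isConj h2
    exact isConj_one_right.1 h3
  have hT2 : ∀ x, (T x).2 = s x := fun x => congrFun hTs x
  have : Fintype κ := Fintype.ofFinite κ
  have hcard : Nat.card (κ ⊕ Fin h) = g + (h + 1) := by
    rw [Nat.card_sum, hκ, Nat.card_fin]
    omega
  refine mixed hcard T (NE.closure_top hT.toNE ht) (e (Fin.last h)).1 fun x hx => ?_
  rcases x with i | j
  · right
    rw [hT2]
    by_contra hne
    obtain ⟨k, hk⟩ := e.surjective ⟨Sum.inl i, hne⟩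
    induction k using Fin.lastCases with
    | last =>
      apply hx
      rw [hk]
    | cast j =>
      have hne' : s (Sum.inr j) ≠ 1 := by
        rw [hs]
        exact FreeGroup.of_ne_one _
      obtain ⟨k', hk'⟩ := e.surjective ⟨Sum.inr j, hne'⟩
      have h2 := he k'
      rw [hk'] at h2
      simp only at h2
      rw [hs] at h2
      have h3 : k' = j.castSucc := by
        split_ifs at h2 with hε
        · exact (FreeGroup.of_injective h2).symm
        · have h4 := congrArg FreeGroup.toWord h2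
          simp [FreeGroup.toWord_inv, FreeGroup.invRev] at h4
      rw [h3, hk] at hk'
      have h5 := congrArg Subtype.val hk'
      simp at h5
  · left
    exact hT1 j

/-- The same with the members `θ (of j.castSucc)` of another basis. PROOF. Apply `pure_conj` to
`fun x => ((t x).1, θ.symm (t x).2)` (`hq` follows by `MonoidHom.map_isConj` for
`MonoidHom.prodMap (MonoidHom.id _) θ.symm.toMonoidHom`; generating:
`MonoidHom.map_closure` and surjectivity of this homomorphism). Then go back with `θ`: `Std.swap`,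
`Std.aut` for the first factor after the exchange (file `Swap.lean`):
`Std (Prod.swap ∘ t')` follows from `Std t'` by `Std.swap` applied to `Prod.swap ∘ (Prod.swap ∘ t')
= t'`. -/
theorem pure_conj_basis {κ : Type} [Finite κ] {g h : ℕ} (hκ : Nat.card κ = g + 1)
    (θ : FreeGroup (Fin (h + 1)) ≃* FreeGroup (Fin (h + 1)))
    (t : κ ⊕ Fin h → FreeGroup (Fin g) × FreeGroup (Fin (h + 1)))
    (ht : Subgroup.closure (Set.range t) = ⊤)
    (hq : ∀ j : Fin h, IsConj
      ((1, θ (FreeGroup.of j.castSucc)) : FreeGroup (Fin g) × FreeGroup (Fin (h + 1)))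
      (t (Sum.inr j))) : Std t := by
  obtain ⟨Φ, hΦ⟩ : ∃ Φ : FreeGroup (Fin g) × FreeGroup (Fin (h + 1)) →*
      FreeGroup (Fin g) × FreeGroup (Fin (h + 1)),
      ∀ x, Φ x = (x.1, θ.symm x.2) :=
    ⟨(MonoidHom.id _).prodMap θ.symm.toMonoidHom, fun x => rfl⟩
  have h1 : Subgroup.closure (Set.range (Φ ∘ t)) = ⊤ := by
    rw [Set.range_comp, ← MonoidHom.map_closure, ht]
    refine Subgroup.map_top_of_surjective _ fun x => ⟨(x.1, θ x.2), ?_⟩
    rw [hΦ]
    simp
  have h2 : Std (Φ ∘ t) := by
    refine pure_conj hκ _ h1 fun j => ?_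
    have h3 := Φ.map_isConj (hq j)
    rw [hΦ] at h3
    simpa using h3
  have h3 : Std (Prod.swap ∘ (Φ ∘ t)) := by
    apply Std.swap
    have e1 : Prod.swap ∘ (Prod.swap ∘ (Φ ∘ t)) = Φ ∘ t := by
      funext x
      simp
    rw [e1]
    exact h2
  have h4 := h3.aut θ
  apply Std.swap
  have e2 : (Prod.swap ∘ t) = fun i => (θ ((Prod.swap ∘ (Φ ∘ t)) i).1,
      ((Prod.swap ∘ (Φ ∘ t)) i).2) := by
    funext i
    simp [hΦ, Prod.swap]
  rw [e2]
  exact h4

end Pool.Agent.MPb5ead8
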