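import Pool.Agent.Lib.MP_b5ead8_al_C.ConLet
import Pool.Agent.Lib.MP_b5ead8_al_C.CMin

/-!
# MP_b5ead8_al: first Nielsen property of constrained minimal tuples
-/

set_option autoImplicit false

namespace Pool.Agent.MPb5ead8

open FreeGroup Function

/-- The signed constrained entries are conjugates of letters or of their inverses.
PROOF. `b.2 = true`: `hL j`. `b.2 = false`: invert (`isConj_iff`). -/
theorem ConL.signed {κ σ : Type} {h : ℕ} {c : σ → Fin h} {t : κ ⊕ σ → FreeGroup (Fin h)}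
    (hL : ConL c t) {b : (κ ⊕ σ) × Bool} {j : σ} (hb : b.1 = Sum.inr j) :
    IsConj (if b.2 then FreeGroup.of (c j) else (FreeGroup.of (c j))⁻¹) (V t b) := by
  rcases b with ⟨k, e⟩
  simp only at hb
  subst hb
  cases e
  · obtain ⟨u, hu⟩ := isConj_iff.1 (hL j)
    refine isConj_iff.2 ⟨u, ?_⟩
    simp only [V, Bool.false_eq_true, if_false]
    rw [← hu]
    group
  · simpa [V] using hL j

private theorem cn1_letter_ne {S : Type} [DecidableEq S] {s s' : S} (hs : s ≠ s') (e e' : Bool) :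
    (if e then FreeGroup.of s else (FreeGroup.of s)⁻¹) ≠
      (if e' then FreeGroup.of s' else (FreeGroup.of s')⁻¹) := by
  intro hh
  have h1 := congrArg FreeGroup.toWord hh
  cases e <;> cases e' <;>
    simp [FreeGroup.toWord_inv, FreeGroup.toWord_of, FreeGroup.invRev, hs] at h1

private theorem cn1_letter_norm {S : Type} [DecidableEq S] (s : S) (e : Bool) :
    (if e then FreeGroup.of s else (FreeGroup.of s)⁻¹).norm = 1 := by
  cases e <;> simp

private theorem cn1_V_norm {ι : Type} {h : ℕ} (t : ι → FreeGroup (Fin h)) (a : ι × Bool) :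
    (V t (bar a)).norm = (V t a).norm := by
  rw [V_bar, norm_inv_eq]

private theorem cn1_half {h : ℕ} {x G y z w v : FreeGroup (Fin h)} (hy : y.norm = 1)
    (hz : z.norm = 1) (hyz : y ≠ z) (hx : x = w * y * w⁻¹) (hG : G = v * z * v⁻¹)
    (hxn : x.norm = 2 * w.norm + 1) (hGn : G.norm = 2 * v.norm + 1) (hxp : cp w x = w.norm)
    (hGp : cp v G = v.norm) (hmin : G.norm ≤ (x⁻¹ * G * (x⁻¹)⁻¹).norm)
    (hwv : w.norm ≤ v.norm) : cp x G ≤ w.norm := by
  by_contra hcon
  rw [not_le] at hcon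
  have hx1 : (x⁻¹).norm = x.norm := norm_inv_eq
  rcases le_or_gt (cp x G) v.norm with h1 | h1
  · have h2 := conj_drop (g := x⁻¹) (c := cp x G) hz hG hGn hGp (by rw [inv_inv]) h1
      (by omega)
    omega
  · rcases lt_or_eq_of_le hwv with h3 | h3
    · have h2 := conj_drop (g := x⁻¹) (c := v.norm) hz hG hGn hGp (by rw [inv_inv]; omega)
        le_rfl (by omega)
      omega
    · exact hyz (conj_letter_eq hy hz h3 hx hG hxn hGn hxp hGp (by omega))

/-- Two constrained entries. PROOF. Put `x = V t b`, `g = V t a`, `c₀ = cp g⁻¹ x`, and (by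
`conj_letter`, `ConL.signed`) `x = w y w⁻¹`, `|x| = 2 |w| + 1`, and `g⁻¹ = v z v⁻¹`
(as `g⁻¹ = V t (bar a)`, `V_bar`), `|g| = 2 |v| + 1`, with `y = (of (c j))^{±1}`,
`z = (of (c i))^{±1}`, `i ≠ j`. Suppose `|w| < c₀` and (by symmetry, see below) `|w| ≤ |v|`.
Case `c₀ ≤ |v|`: `conj_drop` with `g := x⁻¹`, `x := g⁻¹`, `w := v` (`cp x g⁻¹ = c₀` by `cp_comm`,
`|x⁻¹| = 2 |w| + 1 < 2 c₀`) gives `|x⁻¹ g⁻¹ x| < |g⁻¹|`, which contradicts `CMin.conj_norm` for
the pair `bar b`, `bar a` (`V_bar`, `inv_inv`).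
Case `|v| < c₀`, `|w| < |v|`: `conj_drop` with `c := |v|` works in the same way
(`2 |w| + 1 < 2 |v|`).
Case `|v| < c₀`, `|w| = |v|`: `conj_letter_eq` gives `y = z`, but `c i ≠ c j` (`hc`) and
`of (c i) = (of (c j))^{±1}` is impossible (`toWord`, see `nlet_word_inj` in `NLet.lean`).
So `c₀ ≤ |w|` if `|w| ≤ |v|`; then also `2 c₀ ≤ |x|`, `2 c₀ ≤ |g|`. The case `|v| ≤ |w|` is the
same statement for the pair `bar b`, `bar a`: `cp (V t (bar b))⁻¹ (V t (bar a)) = cp x g⁻¹`. -/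
theorem cn1_con {κ σ : Type} [Fintype κ] [Fintype σ] {h : ℕ} {c : σ → Fin h} (hc : Injective c)
    {t : κ ⊕ σ → FreeGroup (Fin h)} (ht : CMin t) (hL : ConL c t) {a b : (κ ⊕ σ) × Bool}
    {i j : σ} (ha : a.1 = Sum.inr i) (hb : b.1 = Sum.inr j) (hij : i ≠ j) :
    2 * cp (V t a)⁻¹ (V t b) ≤ (V t a).norm ∧ 2 * cp (V t a)⁻¹ (V t b) ≤ (V t b).norm := by
  have hGb : (bar a).1 = Sum.inr i := ha
  have hne : (bar b).1 ≠ (bar a).1 := by
    change b.1 ≠ a.1
    rw [ha, hb]
    exact fun hh => hij (Sum.inr_injective hh).symm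
  obtain ⟨w, hw1, hw2, hw3, -⟩ := conj_letter (cn1_letter_norm (c j) b.2) (ConL.signed hL hb)
  obtain ⟨v, hv1, hv2, hv3, -⟩ :=
    conj_letter (cn1_letter_norm (c i) (bar a).2) (ConL.signed hL hGb)
  have hyz := cn1_letter_ne (fun hh : c j = c i => hij (hc hh).symm) b.2 (bar a).2
  have hm1 : (V t (bar a)).norm ≤ ((V t b)⁻¹ * V t (bar a) * ((V t b)⁻¹)⁻¹).norm := by
    have h1 := ht.conj_norm hGb hne
    rw [V_bar t b] at h1
    rcases h1 with h1 | h1
    · exact h1.le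
    · exact h1.1.le
  have hm2 : (V t b).norm ≤ ((V t (bar a))⁻¹ * V t b * ((V t (bar a))⁻¹)⁻¹).norm := by
    have h1 := ht.conj_norm (a := a) hb (fun hh => hne hh.symm)
    rw [V_bar t a, inv_inv]
    rcases h1 with h1 | h1
    · exact h1.le
    · exact h1.1.le
  have hcp : cp (V t a)⁻¹ (V t b) = cp (V t b) (V t (bar a)) := by rw [V_bar, cp_comm]
  have hn := cn1_V_norm t a
  rcases le_total w.norm v.norm with hwv | hwv
  · have h1 := cn1_half (cn1_letter_norm (c j) b.2) (cn1_letter_norm (c i) (bar a).2) hyz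
      hw1 hv1 hw2 hv2 hw3 hv3 hm1 hwv
    omega
  · have h1 := cn1_half (cn1_letter_norm (c i) (bar a).2) (cn1_letter_norm (c j) b.2) hyz.symm
      hv1 hw1 hv2 hw2 hv3 hw3 hm2 hwv
    rw [cp_comm] at h1
    omega

/-- A free entry `a` and a constrained entry `b`. PROOF. `g = V t a`, `x = V t b = w y w⁻¹`
(`conj_letter`, `ConL.signed`), `c₀ = cp g⁻¹ x`.
(1) `2 c₀ ≤ |x|`: `CMin.free_norm` for the pair `bar b`, `bar a` gives `|g| ≤ |x⁻¹ g⁻¹| = |g x|`
(`norm_inv_eq`, `mul_inv_rev`), and `norm_mul_cp g x`: `|g x| + 2 c₀ = |g| + |x|`.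
(2) so `c₀ ≤ |w|` (`|x| = 2 |w| + 1`). If `|g| < 2 c₀`, then `conj_drop` gives
`|g x g⁻¹| < |x|`, a contradiction to `CMin.conj_norm`. -/
theorem cn1_free_con {κ σ : Type} [Fintype κ] [Fintype σ] {h : ℕ} {c : σ → Fin h}
    {t : κ ⊕ σ → FreeGroup (Fin h)} (ht : CMin t) (hL : ConL c t) {a b : (κ ⊕ σ) × Bool}
    {i : κ} {j : σ} (ha : a.1 = Sum.inl i) (hb : b.1 = Sum.inr j) :
    2 * cp (V t a)⁻¹ (V t b) ≤ (V t a).norm ∧ 2 * cp (V t a)⁻¹ (V t b) ≤ (V t b).norm := by
  have hGa : (bar a).1 = Sum.inl i := ha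
  have hne : a.1 ≠ b.1 := by
    rw [ha, hb]
    exact Sum.inl_ne_inr
  obtain ⟨w, hw1, hw2, hw3, -⟩ := conj_letter (cn1_letter_norm (c j) b.2) (ConL.signed hL hb)
  have h1 : (V t (bar a)).norm ≤ (V t (bar b) * V t (bar a)).norm := by
    rcases ht.free_norm (a := bar b) hGa (fun hh => hne hh.symm) with h1 | h1
    · exact h1.le
    · exact h1.1.le
  rw [V_bar, V_bar, ← mul_inv_rev, norm_inv_eq, norm_inv_eq] at h1
  have h2 := norm_mul_cp (V t a) (V t b)
  have h3 : 2 * cp (V t a)⁻¹ (V t b) ≤ (V t b).norm := by omega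
  refine ⟨?_, h3⟩
  by_contra hcon
  rw [not_le] at hcon
  have h4 := conj_drop (g := V t a) (c := cp (V t a)⁻¹ (V t b)) (cn1_letter_norm (c j) b.2)
    hw1 hw2 hw3 le_rfl (by omega) hcon
  rcases ht.conj_norm (a := a) hb hne with h5 | h5
  · omega
  · omega

/-- First Nielsen property. PROOF. If `a.1 = b.1`, then `b = a`, see the proof of `n1` in
`N1.lean` (`two_cp_lt`). Otherwise: both free: `CMin.free_norm` for `a`, `b` and for `bar b`,
`bar a` and `norm_mul_cp`, as in `n1`. `a` free, `b` constrained: `cn1_free_con`. `a` constrained,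
`b` free: `cn1_free_con` for `bar b`, `bar a` (`cp (V t (bar b))⁻¹ (V t (bar a)) =
cp (V t b) (V t a)⁻¹`, `cp_comm`, `norm_inv_eq`). Both constrained: `cn1_con` (the indices differ
since `a.1 ≠ b.1`). -/
theorem cn1 {κ σ : Type} [Fintype κ] [Fintype σ] {h : ℕ} {c : σ → Fin h} (hc : Injective c)
    {t : κ ⊕ σ → FreeGroup (Fin h)} (ht : CMin t) (hL : ConL c t) {a b : (κ ⊕ σ) × Bool}
    (hab : b ≠ bar a) :
    2 * cp (V t a)⁻¹ (V t b) ≤ (V t a).norm ∧ 2 * cp (V t a)⁻¹ (V t b) ≤ (V t b).norm := by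
  by_cases he : a.1 = b.1
  · have hba : b = a := by
      rcases a with ⟨i, x⟩
      rcases b with ⟨j, y⟩
      simp only at he
      subst he
      cases x <;> cases y <;> simp [bar] at hab ⊢
    subst hba
    by_cases h1 : V t b = 1
    · have h2 := cp_le_left (V t b)⁻¹ (V t b)
      rw [norm_inv_eq, h1, FreeGroup.norm_one] at h2
      rw [h1]
      omega
    · have := two_cp_lt h1
      omega
  · have hsw : cp (V t (bar b))⁻¹ (V t (bar a)) = cp (V t a)⁻¹ (V t b) := by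
      rw [V_bar, V_bar, inv_inv, cp_comm]
    have hna := cn1_V_norm t a
    have hnb := cn1_V_norm t b
    rcases ha : a.1 with i | i
    · rcases hb : b.1 with j | j
      · have h1 := ht.free_norm (a := a) hb he
        have h2 := ht.free_norm (a := bar b) (b := bar a) ha (fun hh => he hh.symm)
        have h3 := norm_mul_cp (V t a) (V t b)
        have h4 := norm_mul_cp (V t (bar b)) (V t (bar a))
        rw [hsw] at h4
        omega
      · exact cn1_free_con ht hL ha hb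
    · rcases hb : b.1 with j | j
      · have h1 := cn1_free_con ht hL (a := bar b) (b := bar a) hb ha
        rw [hsw, hna, hnb] at h1
        exact ⟨h1.2, h1.1⟩
      · refine cn1_con hc ht hL ha hb fun hij => he ?_
        rw [ha, hb, hij]

end Pool.Agent.MPb5ead8
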