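import Pool.Agent.Lib.MP_b5ead8_al_C.CN1

/-!
# MP_b5ead8_al: second Nielsen property of constrained minimal tuples
-/

set_option autoImplicit false

namespace Pool.Agent.MPb5ead8

open FreeGroup Function

/-- Conjugation version of `sec_drop`.
PROOF. `|x|` is odd (`hn`), so `2 m < |x|` and `m ≤ |w|`. `sec_drop g x` (with `hg`, `hm`) gives
`|g x| = |x|` and `sec (g x) < sec x`. Now `(g x)⁻¹ = x⁻¹ g⁻¹`. `cp_mul_left x⁻¹ g⁻¹`:
`cp (x⁻¹ g⁻¹) x⁻¹ + cp x g⁻¹ = |x⁻¹| = |x|`, so `cp (x⁻¹ g⁻¹) x⁻¹ = |x| - m > m`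
(`cp_comm`, `hm`). With `hm' : cp g⁻¹ x⁻¹ = m`, `cp_isosceles` gives
`cp g⁻¹ (x⁻¹ g⁻¹) = m`. So `sec_drop g (g x)⁻¹` gives `|g (g x)⁻¹| = |x|` and
`sec (g (g x)⁻¹) < sec (g x)⁻¹ = sec (g x)` (`sec_inv`). Finally
`g x g⁻¹ = (g (g x)⁻¹)⁻¹`. -/
theorem sec_drop_conj {h m : ℕ} {g x : FreeGroup (Fin h)} (hg : g.norm = 2 * m)
    (hm : cp g⁻¹ x = m) (hm' : cp g⁻¹ x⁻¹ = m) (hx : 2 * m < x.norm)
    (hcode : hc h m g < hc h m g⁻¹) :
    (g * x * g⁻¹).norm = x.norm ∧ sec h (g * x * g⁻¹) < sec h x := by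
  obtain ⟨h1, h2⟩ := sec_drop g x hg hm hx.le hcode
  have hgx : (g * x)⁻¹ = x⁻¹ * g⁻¹ := mul_inv_rev g x
  have h3 := cp_mul_left x⁻¹ g⁻¹
  rw [inv_inv, cp_comm x g⁻¹, hm, norm_inv_eq, cp_comm] at h3
  have h4 : cp g⁻¹ (x⁻¹ * g⁻¹) = m := by
    rw [← hm']
    apply cp_isosceles
    omega
  have h5 : (x⁻¹ * g⁻¹).norm = x.norm := by
    rw [← hgx, norm_inv_eq, h1]
  obtain ⟨h6, h7⟩ := sec_drop g (x⁻¹ * g⁻¹) hg h4 (by omega) hcode
  have h8 : g * x * g⁻¹ = (g * (x⁻¹ * g⁻¹))⁻¹ := by group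
  rw [h8, norm_inv_eq, sec_inv]
  refine ⟨by omega, ?_⟩
  have h9 : sec h (x⁻¹ * g⁻¹) = sec h (g * x) := by
    rw [← hgx, sec_inv]
  omega

/-- PROOF. As `n2_aux` in `N2.lean`. Suppose `hc h m (V t b) < hc h m (V t b)⁻¹`. Then
`b.1 ≠ c'.1` and, if `c'.1` is free, `CMin.free_norm` contradicts `sec_drop`. If
`c'.1 = inr j`: by `cn1` `2 m ≤ |V t c'|`, and `|V t c'|` is odd (`conj_letter` and
`ConL.signed`), so `2 m < |V t c'|`. We have `cp (V t b)⁻¹ (V t c')⁻¹ = m`: it is `≤ m` by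
`cn1` for the pair `b`, `bar c'` (`V_bar`; `bar c' ≠ bar b` as `b.1 ≠ c'.1`) and
`|V t b| = 2 m`, and it is `≥ m` by `cp_ultra`, as `m ≤ |w|` and `w` is a common prefix of
`V t c'` and `(V t c')⁻¹` (`conj_letter`: `cp w x = cp w x⁻¹ = |w|`, so `|w| ≤ cp x x⁻¹`). So
`sec_drop_conj` contradicts `CMin.conj_norm`. -/
theorem cn2_aux {κ σ : Type} [Fintype κ] [Fintype σ] {h m : ℕ} {c : σ → Fin h}
    (hc' : Injective c) {t : κ ⊕ σ → FreeGroup (Fin h)} (ht : CMin t) (hL : ConL c t)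
    {b d : (κ ⊕ σ) × Bool} (hbd : d ≠ bar b) (hb : (V t b).norm = 2 * m)
    (hm : cp (V t b)⁻¹ (V t d) = m) : hc h m (V t b)⁻¹ ≤ hc h m (V t b) := by
  by_contra hlt
  push Not at hlt
  have hne : V t b ≠ 1 := by
    intro h1
    rw [h1, inv_one] at hlt
    exact lt_irrefl _ hlt
  have hbd1 : b.1 ≠ d.1 := by
    intro he
    have hdb : d = b := by
      rcases b with ⟨i, x⟩
      rcases d with ⟨j, y⟩
      simp only at he
      subst he
      cases x <;> cases y <;> simp [bar] at hbd ⊢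
    rw [hdb] at hm
    have := two_cp_lt hne
    omega
  have h1 := (cn1 hc' ht hL hbd).2
  rw [hm] at h1
  rcases hd : d.1 with i | j
  · obtain ⟨h2, h3⟩ := sec_drop (V t b) (V t d) hb hm h1 hlt
    rcases CMin.free_norm ht hd hbd1 with h4 | h4
    · omega
    · omega
  · have hy : (if d.2 then FreeGroup.of (c j) else (FreeGroup.of (c j))⁻¹).norm = 1 := by
      split_ifs
      · exact norm_of _
      · rw [norm_inv_eq]
        exact norm_of _
    obtain ⟨w, -, hw2, hw3, hw4⟩ := conj_letter hy (hL.signed hd)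
    have h2 : 2 * m < (V t d).norm := by omega
    have h3 : cp (V t b)⁻¹ (V t d)⁻¹ = m := by
      apply le_antisymm
      · have h4 := (cn1 hc' ht hL (a := b) (b := bar d) (by
          intro he
          exact hbd1 (congrArg Prod.fst he).symm)).1
        rw [V_bar] at h4
        omega
      · have h5 : m ≤ cp (V t d) w := by
          rw [cp_comm, hw3]
          omega
        have h6 : m ≤ cp w (V t d)⁻¹ := by
          rw [hw4]
          omega
        exact cp_ultra hm.ge (cp_ultra h5 h6)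
    obtain ⟨h4, h5⟩ := sec_drop_conj hb hm h3 h2 hlt
    rcases CMin.conj_norm ht hd hbd1 with h6 | h6
    · omega
    · omega

/-- Second Nielsen property. PROOF: copy `n2` of `N2.lean` with `cn1`, `cn2_aux`. -/
theorem cn2 {κ σ : Type} [Fintype κ] [Fintype σ] {h : ℕ} {c : σ → Fin h} (hc' : Injective c)
    {t : κ ⊕ σ → FreeGroup (Fin h)} (ht : CMin t) (hL : ConL c t) {a b d : (κ ⊕ σ) × Bool}
    (hb : V t b ≠ 1) (hab : b ≠ bar a) (hbd : d ≠ bar b) :
    cp (V t a)⁻¹ (V t b) + cp (V t b)⁻¹ (V t d) < (V t b).norm := by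
  by_contra hlt
  push Not at hlt
  have h1 := (cn1 hc' ht hL hab).2
  have h2 := (cn1 hc' ht hL hbd).1
  obtain ⟨m, hm⟩ : ∃ m, m = cp (V t b)⁻¹ (V t d) := ⟨_, rfl⟩
  have hbn : (V t b).norm = 2 * m := by omega
  have hma : cp (V t a)⁻¹ (V t b) = m := by omega
  have h3 := cn2_aux hc' ht hL hbd hbn hm.symm
  have h4 : hc h m (V t b) ≤ hc h m (V t b)⁻¹ := by
    have h5 := cn2_aux (m := m) (b := bar b) (d := bar a) hc' ht hL
      (by
        rw [bar_bar]
        intro he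
        exact hab he.symm)
      (by rw [V_bar, norm_inv_eq, hbn])
      (by rw [V_bar, V_bar, inv_inv, cp_comm, hma])
    rwa [V_bar, inv_inv] at h5
  have h5 : hc h m (V t b)⁻¹ = hc h m (V t b) := le_antisymm h3 h4
  have h6 : ((V t b)⁻¹).toWord.take m = (V t b).toWord.take m := by
    apply code_inj (B := 2 * h + 1) (dig_lt h) (dig_inj h)
    · rw [List.length_take, List.length_take]
      have e1 : ((V t b)⁻¹).toWord.length = 2 * m := by
        rw [← hbn, ← norm_inv_eq]; rfl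
      have e2 : (V t b).toWord.length = 2 * m := by
        rw [← hbn]; rfl
      rw [e1, e2]
    · exact h5
  have h7 : m ≤ cp (V t b)⁻¹ (V t b) := by
    unfold cp
    rw [le_lcp_iff]
    refine ⟨?_, ?_, h6⟩
    · have e1 : ((V t b)⁻¹).toWord.length = 2 * m := by
        rw [← hbn, ← norm_inv_eq]; rfl
      omega
    · have e2 : (V t b).toWord.length = 2 * m := by
        rw [← hbn]; rfl
      omega
  have h8 := two_cp_lt hb
  omega

end Pool.Agent.MPb5ead8
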