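import Pool.Agent.Lib.MP_b5ead8_al_C.Defs
import Pool.Agent.Lib.MP_b5ead8_al.NProd

/-!
# MP_b5ead8_al: reduced form of a conjugate of a letter
-/

set_option autoImplicit false

namespace Pool.Agent.MPb5ead8

open FreeGroup Function

/-- A conjugate of a letter (or of the inverse of a letter) `y` is `w y w⁻¹` with `2 |w| + 1`
letters, and `w` is a prefix of it.
PROOF. Choose `w` of minimal norm with `x = w * y * w⁻¹` (`isConj_iff`, `Nat.find` or
`WellFounded.min`). `y.norm = 1` and `y⁻¹.norm = 1`.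
(1) `(w * y).norm = w.norm + 1`: by `norm_mul_cp w y`, `(w * y).norm + 2 cp w⁻¹ y = w.norm + 1`;
`cp w⁻¹ y ≤ 1` (`cp_le_right`), and if it is `1` then `(w * y).norm = w.norm - 1 < w.norm`, while
`w * y` also conjugates `y` to `x` (`(w * y) * y * (w * y)⁻¹ = w * y * w⁻¹`): contradiction.
(2) In the same way `(w * y⁻¹).norm = w.norm + 1` (`norm_inv_eq`).
(3) `(w * y * w⁻¹).norm = 2 * w.norm + 1`: `norm_mul_cp (w * y) w⁻¹` gives
`norm + 2 cp (w * y)⁻¹ w⁻¹ = (w.norm + 1) + w.norm`, so `cp (w * y)⁻¹ w⁻¹ = 0` is needed.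
`cp_mul_left y⁻¹ w⁻¹` says `cp (y⁻¹ * w⁻¹) y⁻¹ + cp y w⁻¹ = y⁻¹.norm = 1`, and
`cp y w⁻¹ = cp w⁻¹ y = 0` by (1) and `cp_comm`; so `(w * y)⁻¹ = y⁻¹ * w⁻¹` has common prefix
`≥ 1` with `y⁻¹`. By (2) `cp w⁻¹ y⁻¹ = 0` (`norm_mul_cp w y⁻¹`). If `1 ≤ cp (w * y)⁻¹ w⁻¹`, then
`cp_ultra` with `1 ≤ cp y⁻¹ (w * y)⁻¹` gives `1 ≤ cp y⁻¹ w⁻¹`, contradiction.
(4) `cp w x = w.norm`: `cp_mul_left w (y * w⁻¹)` gives `cp x w + cp w⁻¹ (y * w⁻¹) = w.norm`
(`mul_assoc`), and `norm_mul_cp w (y * w⁻¹)` gives `x.norm + 2 cp w⁻¹ (y * w⁻¹) = w.norm +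
(y * w⁻¹).norm ≤ w.norm + (1 + w.norm)` (`norm_mul_le`, `norm_inv_eq`), so
`cp w⁻¹ (y * w⁻¹) = 0` by (3).
(5) `cp w x⁻¹ = w.norm`: the same with `y⁻¹`: `x⁻¹ = w * y⁻¹ * w⁻¹`, `x⁻¹.norm = x.norm`. -/
theorem conj_letter {h : ℕ} {y x : FreeGroup (Fin h)} (hy : y.norm = 1) (hx : IsConj y x) :
    ∃ w : FreeGroup (Fin h), x = w * y * w⁻¹ ∧ x.norm = 2 * w.norm + 1 ∧ cp w x = w.norm ∧
      cp w x⁻¹ = w.norm := by
  classical
  obtain ⟨c0, hc0⟩ := isConj_iff.1 hx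
  have hex : ∃ n, ∃ w : FreeGroup (Fin h), w.norm = n ∧ x = w * y * w⁻¹ :=
    ⟨c0.norm, c0, rfl, hc0.symm⟩
  obtain ⟨w, hwn, hxw⟩ := Nat.find_spec hex
  have hmin : ∀ v : FreeGroup (Fin h), x = v * y * v⁻¹ → w.norm ≤ v.norm := fun v hv => by
    rw [hwn]
    exact Nat.find_min' hex ⟨v, rfl, hv⟩
  have hy' : (y⁻¹).norm = 1 := by rw [norm_inv_eq, hy]
  have hw' : (w⁻¹).norm = w.norm := norm_inv_eq
  have c1 : cp w⁻¹ y = 0 := by
    have a1 := norm_mul_cp w y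
    have a2 : cp w⁻¹ y ≤ y.norm := cp_le_right _ _
    have a3 := hmin (w * y) (by rw [hxw]; group)
    omega
  have c2 : cp w⁻¹ y⁻¹ = 0 := by
    have a1 := norm_mul_cp w y⁻¹
    have a2 : cp w⁻¹ y⁻¹ ≤ (y⁻¹).norm := cp_le_right _ _
    have a3 := hmin (w * y⁻¹) (by rw [hxw]; group)
    omega
  have n1 : (w * y).norm = w.norm + 1 := by
    have a1 := norm_mul_cp w y
    omega
  have c3 : cp (w * y)⁻¹ w⁻¹ = 0 := by
    by_contra hne
    have b0 : 1 ≤ cp (w * y)⁻¹ w⁻¹ := by omega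
    have b1 := cp_mul_left y⁻¹ w⁻¹
    rw [inv_inv, cp_comm y w⁻¹, c1, hy', ← mul_inv_rev, cp_comm] at b1
    have b2 : 1 ≤ cp y⁻¹ w⁻¹ := cp_ultra (by omega) b0
    rw [cp_comm] at b2
    omega
  have n2 : x.norm = 2 * w.norm + 1 := by
    have a1 := norm_mul_cp (w * y) w⁻¹
    rw [← hxw] at a1
    omega
  refine ⟨w, hxw, n2, ?_, ?_⟩
  · have a1 := cp_mul_left w (y * w⁻¹)
    have a2 := norm_mul_cp w (y * w⁻¹)
    have a3 := norm_mul_le y w⁻¹
    rw [← mul_assoc, ← hxw] at a1 a2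
    rw [cp_comm] at a1
    omega
  · have hxi : x⁻¹ = w * y⁻¹ * w⁻¹ := by rw [hxw]; group
    have hxn : (x⁻¹).norm = x.norm := norm_inv_eq
    have a1 := cp_mul_left w (y⁻¹ * w⁻¹)
    have a2 := norm_mul_cp w (y⁻¹ * w⁻¹)
    have a3 := norm_mul_le y⁻¹ w⁻¹
    rw [← mul_assoc, ← hxi] at a1 a2
    rw [cp_comm] at a1
    omega

private theorem conlet_ext {h k : ℕ} {a b : FreeGroup (Fin h)} (ha : a.norm = k)
    (hb : b.norm = k) (hk : k ≤ cp a b) : a = b := by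
  have h1 := ((le_lcp_iff _ _ _).1 hk).2.2
  have ha' : a.toWord.length = k := ha
  have hb' : b.toWord.length = k := hb
  rw [List.take_of_length_le (by omega), List.take_of_length_le (by omega)] at h1
  exact toWord_injective h1

private theorem conlet_pref {h : ℕ} {y w x : FreeGroup (Fin h)} (hy : y.norm = 1)
    (hx : x = w * y * w⁻¹) (hn : x.norm = 2 * w.norm + 1) :
    (w * y).norm = w.norm + 1 ∧ cp x (w * y) = w.norm + 1 := by
  have hw' : (w⁻¹).norm = w.norm := norm_inv_eq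
  have a1 := norm_mul_le w y
  have a2 := norm_mul_le (w * y) w⁻¹
  have a3 := cp_mul_left (w * y) w⁻¹
  have a4 := norm_mul_cp (w * y) w⁻¹
  rw [← hx] at a2 a3 a4
  omega

/-- Two words `w y w⁻¹`, `w y' w⁻¹` with letters `y`, `y'` (or their inverses) which agree in the
first `|w| + 1` letters are equal.
PROOF. `(w * y).norm = w.norm + 1` (from `hx`: `x.norm ≤ (w * y).norm + w.norm` by `norm_mul_le`,
`(w * y).norm ≤ w.norm + 1`), and `w * y` is a prefix of `x = (w * y) * w⁻¹`: `cp_mul_left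
(w * y) w⁻¹` and `norm_mul_cp (w * y) w⁻¹` (with `hx`) give `cp x (w * y) = w.norm + 1`. In the
same way `cp x' (w' * y') = w'.norm + 1`. So with `k = w.norm + 1`, `cp_ultra` gives
`k ≤ cp (w * y) (w' * y')`; both norms are `k`, so by `le_lcp_iff` the words agree
(`List.take_length`): `w * y = w' * y'` (`toWord_injective`). And `cp w x = w.norm`,
`cp w' x' = w'.norm` give in the same way `w = w'`. Hence `y = y'`. -/
theorem conj_letter_eq {h : ℕ} {y y' w w' x x' : FreeGroup (Fin h)} (hy : y.norm = 1)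
    (hy' : y'.norm = 1) (hw : w.norm = w'.norm) (hx : x = w * y * w⁻¹) (hx' : x' = w' * y' * w'⁻¹)
    (hn : x.norm = 2 * w.norm + 1) (hn' : x'.norm = 2 * w'.norm + 1)
    (hp : cp w x = w.norm) (hp' : cp w' x' = w'.norm)
    (hc : w.norm + 1 ≤ cp x x') : y = y' := by
  obtain ⟨a1, a2⟩ := conlet_pref hy hx hn
  obtain ⟨b1, b2⟩ := conlet_pref hy' hx' hn'
  have e1 : w * y = w' * y' := by
    refine conlet_ext a1 (by omega) ?_
    have h1 : w.norm + 1 ≤ cp (w * y) x := by rw [cp_comm]; omega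
    exact cp_ultra (cp_ultra h1 hc) (by omega)
  have e2 : w = w' := by
    refine conlet_ext rfl (by omega) ?_
    have h1 : w.norm ≤ cp x x' := by omega
    have h2 : w.norm ≤ cp x' w' := by rw [cp_comm]; omega
    exact cp_ultra (cp_ultra hp.ge h1) h2
  rw [e2] at e1
  exact mul_left_cancel e1

/-- Conjugation by `g` shortens `x = w y w⁻¹` if more than half of `g` is cancelled and the
cancelled part is contained in `w`.
PROOF. `cp_ultra` : `c ≤ cp g⁻¹ w` from `c ≤ cp g⁻¹ x` and `c ≤ w.norm = cp w x` (`cp_comm`).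
`norm_mul_cp g w`: `(g * w).norm + 2 cp g⁻¹ w = g.norm + w.norm`, so `(g * w).norm + 2 c ≤
g.norm + w.norm < 2 c + w.norm`, i.e. `(g * w).norm < w.norm`. And
`g * x * g⁻¹ = (g * w) * y * (g * w)⁻¹` has norm `≤ 2 (g * w).norm + 1` (`norm_mul_le`,
`norm_inv_eq`). -/
theorem conj_drop {h c : ℕ} {g y w x : FreeGroup (Fin h)} (hy : y.norm = 1)
    (hx : x = w * y * w⁻¹) (hn : x.norm = 2 * w.norm + 1) (hp : cp w x = w.norm)
    (hc : c ≤ cp g⁻¹ x) (hcw : c ≤ w.norm) (hg : g.norm < 2 * c) :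
    (g * x * g⁻¹).norm < x.norm := by
  have h1 : c ≤ cp x w := by rw [cp_comm]; omega
  have h2 : c ≤ cp g⁻¹ w := cp_ultra hc h1
  have h3 := norm_mul_cp g w
  have h4 : g * x * g⁻¹ = g * w * y * (g * w)⁻¹ := by rw [hx]; group
  have h5 := norm_mul_le (g * w * y) (g * w)⁻¹
  have h6 := norm_mul_le (g * w) y
  have h7 : ((g * w)⁻¹).norm = (g * w).norm := norm_inv_eq
  rw [h4]
  omega

end Pool.Agent.MPb5ead8
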