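import Pool.Agent.Lib.MP_b5ead8_al.FinalAB

/-!
# MP_b5ead8_al: Nielsen equivalence with constrained entries

The entries with index `inr j` may only be replaced by conjugates.
-/

set_option autoImplicit false

namespace Pool.Agent.MPb5ead8

open FreeGroup Function

section

variable {κ σ G H : Type} [Group G] [Group H]

/-- Nielsen equivalence of tuples by an automorphism which sends the generators `inr j` to
conjugates of themselves. -/
def CN (t s : κ ⊕ σ → G) : Prop :=
  ∃ α : FreeGroup (κ ⊕ σ) ≃* FreeGroup (κ ⊕ σ),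
    (∀ k, FreeGroup.lift t (α (FreeGroup.of k)) = s k) ∧
    ∀ j : σ, IsConj (FreeGroup.of (Sum.inr j : κ ⊕ σ)) (α (FreeGroup.of (Sum.inr j)))

theorem CN.refl (t : κ ⊕ σ → G) : CN t t :=
  ⟨MulEquiv.refl _, fun k => by simp, fun j => IsConj.refl _⟩

theorem CN.of_eq {t s : κ ⊕ σ → G} (h : t = s) : CN t s := h ▸ CN.refl t

theorem CN.trans {t s r : κ ⊕ σ → G} (h : CN t s) (h' : CN s r) : CN t r := by
  obtain ⟨α, hα, hα'⟩ := h
  obtain ⟨β, hβ, hβ'⟩ := h'
  refine ⟨β.trans α, fun k => by rw [MulEquiv.trans_apply, NE.hom hα, hβ], fun j => ?_⟩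
  have h1 := α.toMonoidHom.map_isConj (hβ' j)
  exact (hα' j).trans h1

theorem CN.toNE {t s : κ ⊕ σ → G} (h : CN t s) : NE t s := by
  obtain ⟨α, hα, -⟩ := h
  exact ⟨α, hα⟩

theorem CN.isConj {t s : κ ⊕ σ → G} (h : CN t s) (j : σ) :
    IsConj (t (Sum.inr j)) (s (Sum.inr j)) := by
  obtain ⟨α, hα, hα'⟩ := h
  have h1 := (FreeGroup.lift t).map_isConj (hα' j)
  rw [hα, FreeGroup.lift_apply_of] at h1
  exact h1

theorem CN.lift_map (f : G →* H) {t : κ ⊕ σ → G} {s : κ ⊕ σ → H} (h : CN (f ∘ t) s) :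
    ∃ t1 : κ ⊕ σ → G, CN t t1 ∧ f ∘ t1 = s := by
  obtain ⟨α, hα, hα'⟩ := h
  refine ⟨fun k => FreeGroup.lift t (α (FreeGroup.of k)), ⟨α, fun k => rfl, hα'⟩, ?_⟩
  funext k
  rw [← hα k]
  have h1 : FreeGroup.lift (f ∘ t) = f.comp (FreeGroup.lift t) := by
    ext i
    simp
  rw [h1]
  rfl

end

section

variable {ι G : Type} [DecidableEq ι] [Group G]

/-- The endomorphism multiplying one generator by `u` from the left and by `v` from the right. -/
def phi (i : ι) (u v : FreeGroup ι) : FreeGroup ι →* FreeGroup ι :=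
  FreeGroup.lift (fun k => if k = i then u * FreeGroup.of i * v else FreeGroup.of k)

theorem phi_self (i : ι) (u v : FreeGroup ι) :
    phi i u v (FreeGroup.of i) = u * FreeGroup.of i * v := by simp [phi]

theorem phi_ne {i k : ι} (hk : k ≠ i) (u v : FreeGroup ι) :
    phi i u v (FreeGroup.of k) = FreeGroup.of k := by simp [phi, hk]

theorem phi_fix (i : ι) (u v : FreeGroup ι) {w : FreeGroup ι}
    (hw : w ∈ Subgroup.closure (FreeGroup.of '' {k | k ≠ i})) : phi i u v w = w := by
  induction hw using Subgroup.closure_induction with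
  | mem x hx =>
    obtain ⟨k, hk, rfl⟩ := hx
    exact phi_ne hk u v
  | one => rw [_root_.map_one]
  | mul x y _ _ hx hy => rw [_root_.map_mul, hx, hy]
  | inv x _ hx => rw [_root_.map_inv, hx]

theorem phi_comp (i : ι) {u v : FreeGroup ι}
    (hu : u ∈ Subgroup.closure (FreeGroup.of '' {k | k ≠ i}))
    (hv : v ∈ Subgroup.closure (FreeGroup.of '' {k | k ≠ i})) :
    (phi i u v).comp (phi i u⁻¹ v⁻¹) = MonoidHom.id (FreeGroup ι) := by
  ext k
  by_cases hk : k = i
  · subst hk
    rw [MonoidHom.comp_apply, phi_self, _root_.map_mul, _root_.map_mul, phi_self,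
      phi_fix _ _ _ (inv_mem hu), phi_fix _ _ _ (inv_mem hv), MonoidHom.id_apply]
    group
  · rw [MonoidHom.comp_apply, phi_ne hk, phi_ne hk, MonoidHom.id_apply]

/-- The automorphism multiplying one generator by words in the others. -/
def phiEquiv (i : ι) (u v : FreeGroup ι)
    (hu : u ∈ Subgroup.closure (FreeGroup.of '' {k | k ≠ i}))
    (hv : v ∈ Subgroup.closure (FreeGroup.of '' {k | k ≠ i})) : FreeGroup ι ≃* FreeGroup ι :=
  MonoidHom.toMulEquiv (phi i u v) (phi i u⁻¹ v⁻¹)
    (by simpa using phi_comp i (inv_mem hu) (inv_mem hv)) (phi_comp i hu hv)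

theorem phiEquiv_apply (i : ι) (u v : FreeGroup ι)
    (hu : u ∈ Subgroup.closure (FreeGroup.of '' {k | k ≠ i}))
    (hv : v ∈ Subgroup.closure (FreeGroup.of '' {k | k ≠ i})) (x : FreeGroup ι) :
    phiEquiv i u v hu hv x = phi i u v x := rfl

theorem lift_phi (t : ι → G) (i : ι) (u v : FreeGroup ι) (k : ι) :
    FreeGroup.lift t (phi i u v (FreeGroup.of k)) =
      update t i (FreeGroup.lift t u * t i * FreeGroup.lift t v) k := by
  by_cases hk : k = i
  · subst hk
    rw [phi_self, update_self]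
    simp
  · rw [phi_ne hk, update_of_ne hk]
    simp

omit [DecidableEq ι] in
/-- The word of a signed index. -/
theorem lift_V_of (t : ι → G) (a : ι × Bool) :
    FreeGroup.lift t (V FreeGroup.of a) = V t a := by
  unfold V
  split_ifs <;> simp

omit [DecidableEq ι] in
theorem V_of_mem {a : ι × Bool} {i : ι} (ha : a.1 ≠ i) :
    V FreeGroup.of a ∈ Subgroup.closure ((FreeGroup.of : ι → FreeGroup ι) '' {k | k ≠ i}) := by
  have h0 : FreeGroup.of a.1 ∈
      Subgroup.closure ((FreeGroup.of : ι → FreeGroup ι) '' {k | k ≠ i}) :=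
    Subgroup.subset_closure ⟨a.1, ha, rfl⟩
  unfold V
  split_ifs
  · exact h0
  · exact inv_mem h0

end

section

variable {κ σ G : Type} [DecidableEq κ] [DecidableEq σ] [Group G]

/-- Elementary move: a free entry is multiplied by words in the other entries. -/
theorem CN.mul_entry (t : κ ⊕ σ → G) (i : κ) {u v : FreeGroup (κ ⊕ σ)}
    (hu : u ∈ Subgroup.closure (FreeGroup.of '' {k | k ≠ Sum.inl i}))
    (hv : v ∈ Subgroup.closure (FreeGroup.of '' {k | k ≠ Sum.inl i})) :
    CN t (update t (Sum.inl i) (FreeGroup.lift t u * t (Sum.inl i) * FreeGroup.lift t v)) := by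
  refine ⟨phiEquiv (Sum.inl i) u v hu hv, fun k => ?_, fun j => ?_⟩
  · rw [phiEquiv_apply, lift_phi]
  · rw [phiEquiv_apply, phi_ne (by simp)]

/-- Elementary move: inversion of a free entry. -/
theorem CN.inv_entry (t : κ ⊕ σ → G) (i : κ) :
    CN t (update t (Sum.inl i) (t (Sum.inl i))⁻¹) := by
  have key : (FreeGroup.lift (fun k : κ ⊕ σ => if k = Sum.inl i then (FreeGroup.of k)⁻¹
      else FreeGroup.of k)).comp (FreeGroup.lift (fun k : κ ⊕ σ => if k = Sum.inl i then
      (FreeGroup.of k)⁻¹ else FreeGroup.of k)) = MonoidHom.id (FreeGroup (κ ⊕ σ)) := by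
    ext k
    by_cases hk : k = Sum.inl i
    · subst hk
      simp
    · simp [hk]
  refine ⟨MonoidHom.toMulEquiv _ _ key key, fun k => ?_, fun j => ?_⟩
  · by_cases hk : k = Sum.inl i
    · subst hk
      simp
    · simp [hk]
  · have h1 : (FreeGroup.lift (fun k : κ ⊕ σ => if k = Sum.inl i then (FreeGroup.of k)⁻¹
        else FreeGroup.of k)) (FreeGroup.of (Sum.inr j)) = FreeGroup.of (Sum.inr j) := by simp
    change IsConj _ ((FreeGroup.lift (fun k : κ ⊕ σ => if k = Sum.inl i then (FreeGroup.of k)⁻¹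
        else FreeGroup.of k)) (FreeGroup.of (Sum.inr j)))
    rw [h1]

/-- Elementary move: a constrained entry is conjugated by a word in the other entries. -/
theorem CN.conj_entry (t : κ ⊕ σ → G) (j : σ) {u : FreeGroup (κ ⊕ σ)}
    (hu : u ∈ Subgroup.closure (FreeGroup.of '' {k | k ≠ Sum.inr j})) :
    CN t (update t (Sum.inr j) (FreeGroup.lift t u * t (Sum.inr j) * (FreeGroup.lift t u)⁻¹)) := by
  refine ⟨phiEquiv (Sum.inr j) u u⁻¹ hu (inv_mem hu), fun k => ?_, fun l => ?_⟩
  · rw [phiEquiv_apply, lift_phi, _root_.map_inv]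
  · rw [phiEquiv_apply]
    by_cases hl : l = j
    · subst hl
      rw [phi_self]
      exact isConj_iff.2 ⟨u, rfl⟩
    · rw [phi_ne (by simpa using hl)]

/-- The product of two signed entries in the place of a free entry. -/
theorem CN.prod_entry (t : κ ⊕ σ → G) {a b : (κ ⊕ σ) × Bool} {i : κ} (hb : b.1 = Sum.inl i)
    (hab : a.1 ≠ b.1) : CN t (update t b.1 (V t a * V t b)) := by
  have ha : a.1 ≠ Sum.inl i := by rwa [hb] at hab
  have h1 : CN t (update t (Sum.inl i) (V t b)) := by
    rcases b with ⟨k, c⟩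
    simp only at hb
    subst hb
    cases c
    · simpa [V] using CN.inv_entry t i
    · simpa [V] using CN.refl t
  have h2 := CN.mul_entry (update t (Sum.inl i) (V t b)) i (V_of_mem ha)
    (Subgroup.one_mem _)
  rw [lift_V_of, update_self, update_idem, _root_.map_one, mul_one] at h2
  have h3 : V (update t (Sum.inl i) (V t b)) a = V t a := by
    have h4 := fun x : G => update_of_ne ha x t
    unfold V at *
    split_ifs <;> rw [h4]
  rw [h3] at h2
  rw [hb]
  exact h1.trans h2

/-- Conjugation of a constrained entry by a signed entry. -/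
theorem CN.conj_signed (t : κ ⊕ σ → G) {a : (κ ⊕ σ) × Bool} {j : σ} (ha : a.1 ≠ Sum.inr j) :
    CN t (update t (Sum.inr j) (V t a * t (Sum.inr j) * (V t a)⁻¹)) := by
  have h1 := CN.conj_entry t j (V_of_mem ha)
  rwa [lift_V_of] at h1

end

/-- A tuple is constrained minimal if no constrained equivalent tuple has smaller total length,
or the same total length and smaller second weight. -/
def CMin {κ σ : Type} [Fintype κ] [Fintype σ] {h : ℕ} (t : κ ⊕ σ → FreeGroup (Fin h)) : Prop :=
  ∀ s : κ ⊕ σ → FreeGroup (Fin h), CN t s → ∑ i, (t i).norm < ∑ i, (s i).norm ∨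
    (∑ i, (t i).norm = ∑ i, (s i).norm ∧ ∑ i, sec h (t i) ≤ ∑ i, sec h (s i))

/-- The constrained entries are conjugates of letters. -/
def ConL {κ σ : Type} {h : ℕ} (c : σ → Fin h) (t : κ ⊕ σ → FreeGroup (Fin h)) : Prop :=
  ∀ j : σ, IsConj (FreeGroup.of (c j)) (t (Sum.inr j))

end Pool.Agent.MPb5ead8
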