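import Pool.Agent.Lib.MP_b5ead8_al_C.CMixed

/-!
# MP_b5ead8_al: pure primitive elements, the final statements
-/

set_option autoImplicit false

namespace Pool.Agent.MPb5ead8

open FreeGroup Function

/-- From `Std` to an automorphism, when there are no superfluous generators. -/
theorem Std.exists_aut_of_basis {g h : ℕ} (π : FreeGroup (Fin g ⊕ Fin h) →*
      FreeGroup (Fin g) × FreeGroup (Fin h))
    (β : MulAut (FreeGroup (Fin g ⊕ Fin h)))
    (h1 : Std (fun i => π (β (FreeGroup.of i)))) :
    ∃ α : MulAut (FreeGroup (Fin g ⊕ Fin h)),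
      π = (FreeGroup.lift (Sum.elim
        (fun i : Fin g => ((FreeGroup.of i, 1) : FreeGroup (Fin g) × FreeGroup (Fin h)))
        (fun j : Fin h => ((1, FreeGroup.of j) : FreeGroup (Fin g) × FreeGroup (Fin h))))).comp
        α.toMonoidHom := by
  have h2 : Std (Sum.elim (fun i => (π.comp β.toMonoidHom) (FreeGroup.of i))
      (fun _ : Fin 0 => 1)) := Std.sum_one h1
  obtain ⟨α, hα⟩ := Std.exists_aut h2
  let e : FreeGroup (Fin g ⊕ Fin h) ≃* FreeGroup ((Fin g ⊕ Fin h) ⊕ Fin 0) :=
    FreeGroup.freeGroupCongr (Equiv.sumEmpty _ _).symm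
  refine ⟨(β.symm.trans e).trans (α.trans e.symm), ?_⟩
  have h3 : ∀ s : Fin g ⊕ Fin h → FreeGroup (Fin g) × FreeGroup (Fin h),
      (FreeGroup.lift (Sum.elim s (fun _ : Fin 0 => 1))).comp e.toMonoidHom =
      FreeGroup.lift s := by
    intro s
    ext x <;> simp [e]
  have h4 : ∀ s : Fin g ⊕ Fin h → FreeGroup (Fin g) × FreeGroup (Fin h), ∀ x,
      FreeGroup.lift s (e.symm x) = FreeGroup.lift (Sum.elim s (fun _ : Fin 0 => 1)) x := by
    intro s x
    rw [← h3 s]
    simp
  have h5 : FreeGroup.lift (fun i => (π.comp β.toMonoidHom) (FreeGroup.of i)) =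
      π.comp β.toMonoidHom := by
    ext i <;> simp
  rw [std] at hα
  ext1 i
  change π (FreeGroup.of i) = FreeGroup.lift _ (e.symm (α (e (β.symm (FreeGroup.of i)))))
  rw [h4]
  have h6 := DFunLike.congr_fun hα (e (β.symm (FreeGroup.of i)))
  have h7 := DFunLike.congr_fun (h3 (fun i => (π.comp β.toMonoidHom) (FreeGroup.of i)))
    (β.symm (FreeGroup.of i))
  rw [h5] at h7
  change _ = π (β (β.symm (FreeGroup.of i))) at h7
  rw [MulEquiv.apply_symm_apply] at h7
  rw [← h7]
  exact h6

/-- The index set with the last element of the second block moved to the first block. -/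
private def fpEquiv (g h : ℕ) : (Fin g ⊕ Fin 1) ⊕ Fin h ≃ Fin g ⊕ Fin (h + 1) where
  toFun := Sum.elim (Sum.elim Sum.inl fun _ => Sum.inr (Fin.last h)) fun j => Sum.inr j.castSucc
  invFun := Sum.elim (fun i => Sum.inl (Sum.inl i)) fun j =>
    Fin.lastCases (motive := fun _ => (Fin g ⊕ Fin 1) ⊕ Fin h) (Sum.inl (Sum.inr 0))
      (fun j => Sum.inr j) j
  left_inv := by
    rintro ((i | i) | j)
    · rfl
    · have : i = 0 := Subsingleton.elim _ _
      subst this
      simp
    · simp
  right_inv := by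
    rintro (i | j)
    · rfl
    · induction j using Fin.lastCases with
      | last => simp
      | cast j => simp

/-- Second factor. -/
theorem final_pure_snd (g h : ℕ) (π : FreeGroup (Fin g ⊕ Fin (h + 1)) →*
      FreeGroup (Fin g) × FreeGroup (Fin (h + 1))) (hπ : Surjective π)
    (β : MulAut (FreeGroup (Fin g ⊕ Fin (h + 1)))) (θ : MulAut (FreeGroup (Fin (h + 1))))
    (hpure : ∀ j : Fin h, IsConj (π (β (FreeGroup.of (Sum.inr j.castSucc))))
      ((1, θ (FreeGroup.of j.castSucc)) : FreeGroup (Fin g) × FreeGroup (Fin (h + 1)))) :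
    Std (fun i => π (β (FreeGroup.of i))) := by
  have h0 : Surjective (π.comp β.toMonoidHom) := hπ.comp β.surjective
  have h1 := closure_of_surjective _ h0
  have h2 := pure_conj_basis (κ := Fin g ⊕ Fin 1) (g := g) (h := h) (by simp) θ
    ((fun i => π (β (FreeGroup.of i))) ∘ fpEquiv g h) (by
      rw [Set.range_comp, (fpEquiv g h).range_eq_univ, Set.image_univ]
      exact h1) (fun j => (hpure j).symm)
  exact Std.of_NE (NE.reindex _ (fpEquiv g h)) h2

/-- First factor. -/
theorem final_pure_fst (g h : ℕ) (π : FreeGroup (Fin (g + 1) ⊕ Fin h) →*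
      FreeGroup (Fin (g + 1)) × FreeGroup (Fin h)) (hπ : Surjective π)
    (β : MulAut (FreeGroup (Fin (g + 1) ⊕ Fin h))) (θ : MulAut (FreeGroup (Fin (g + 1))))
    (hpure : ∀ i : Fin g, IsConj (π (β (FreeGroup.of (Sum.inl i.castSucc))))
      ((θ (FreeGroup.of i.castSucc), 1) : FreeGroup (Fin (g + 1)) × FreeGroup (Fin h))) :
    Std (fun i => π (β (FreeGroup.of i))) := by
  let S : FreeGroup (Fin (g + 1)) × FreeGroup (Fin h) →*
      FreeGroup (Fin h) × FreeGroup (Fin (g + 1)) :=
    (MulEquiv.prodComm : _ ≃* _).toMonoidHom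
  have hS : ∀ x, S x = Prod.swap x := fun x => rfl
  have h0 : Surjective (π.comp β.toMonoidHom) := hπ.comp β.surjective
  have h1 := closure_of_surjective _ h0
  have h1' : Subgroup.closure (Set.range (S ∘ fun i => π (β (FreeGroup.of i)))) = ⊤ := by
    rw [Set.range_comp, ← MonoidHom.map_closure]
    have h2 : Subgroup.closure (Set.range fun i => π (β (FreeGroup.of i))) = ⊤ := h1
    rw [h2]
    exact Subgroup.map_top_of_surjective _ (MulEquiv.surjective _)
  have h2 := pure_conj_basis (κ := Fin h ⊕ Fin 1) (g := h) (h := g) (by simp) θ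
    ((S ∘ fun i => π (β (FreeGroup.of i))) ∘ (Equiv.sumComm _ _) ∘ fpEquiv h g) (by
      rw [Set.range_comp, Set.range_comp, (fpEquiv h g).range_eq_univ, Set.image_univ,
        (Equiv.sumComm _ _).range_eq_univ, Set.image_univ]
      exact h1') (fun j => by
      have h3 := S.map_isConj (hpure j)
      rw [hS ((θ (FreeGroup.of j.castSucc), 1) :
        FreeGroup (Fin (g + 1)) × FreeGroup (Fin h))] at h3
      exact h3.symm)
  have h3 : Std (S ∘ fun i => π (β (FreeGroup.of i))) := by
    exact Std.of_NE (NE.reindex (S ∘ fun i => π (β (FreeGroup.of i)))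
      ((fpEquiv h g).trans (Equiv.sumComm _ _))) h2
  exact Std.swap h3

end Pool.Agent.MPb5ead8
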